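import Pool.Agent.H728.LS.Mem

/-!
# Long and short edges on complete bipartite graphs

Long/short edge realizability remains `∃ℝ`-complete if the underlying graph is a complete bipartite
graph `K_{m,n}`.

Sketch of the hardness proof. Let a matrix of signs be given; it is `∃ℝ`-hard to decide whether
there are lines (the columns) and points (the rows) in the plane such that the `i`-th point is on
the side of the `j`-th line prescribed by the sign `(i, j)`. Take one vertex `p_i` for every row and
two vertices `q_j`, `q'_j` for every column; if the sign `(i, j)` is positive then `p_i q_j` is short
and `p_i q'_j` is long, otherwise `p_i q_j` is long and `p_i q'_j` is short. In a realization the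
perpendicular bisector of `q_j` and `q'_j` is a line which separates the points `p_i` in the
prescribed way. Conversely, given points and lines, shrink the picture and let `q_j`, `q'_j` be the
centres of the unit disks which touch the `j`-th line from its two sides. All the inequalities can
be made strict, and then a small perturbation brings all the points into general position.
-/

namespace Pool.Agent.Results.MP_24b35c_lc.CompleteBipartite

open Pool.Agent.NPC Pool.Agent.NPC.ER Pool.Agent.H728.LS

/-- Long/short edge realizability for complete bipartite graphs is `∃ℝ`-complete under
polynomial-time many-one reductions. -/
theorem result : ERComplete (lang fun M : List (List Bool) => IsMat M ∧ KRealizable M) :=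
  ⟨Pool.Agent.NPC.ER.LS.lsk_mem, Pool.Agent.NPC.ER.LS.lsk_hard⟩

end Pool.Agent.Results.MP_24b35c_lc.CompleteBipartite
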